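import Pool.Agent.V1114.WeierLevel

set_option autoImplicit false

/-!
# Interior level sets of Weierstrass functions: the answer to Q1 of MP_935c4d_an is no

`LS` is the Banach space `Lip(S¹)`: the Lipschitz functions on the circle, written as `1`-periodic
Lipschitz functions `g.fn` on `ℝ`, with the norm `sup |g| + sup_{x ≠ y} |g x - g y| / |x - y|`;
`W b α g x = ∑ b^(-αk) g(b^k x)`; `IsShy` is the definition of the problem file.
-/

open MeasureTheory Set

namespace Pool.Agent.Results.MP_935c4d_an.TwoPointLevel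

open Pool.Agent.W172.WL Pool.Agent.V1114.WeierLevel

/-- (i) For every odd `b` and `α < 1` with `b^α ≥ 20` and `b^(1-α) ≥ 2` there is a ball of `Lip(S¹)` such
that for every `g` in it some level `y` in the interior of the image of `W_g` is attained at exactly two
points of the circle.
(ii) For these `b, α` the set of `g` for which some interior level set has dimension different from
`1 - α` is not shy.
(iii) So it is false that for all `b ≥ 2` and `0 < α < 1` the set of `g` all of whose interior level sets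
have dimension `1 - α` is prevalent. -/
theorem result :
    (∀ (b : ℕ) (α : ℝ), Odd b → α < 1 → (20 : ℝ) ≤ (b : ℝ) ^ α → (2 : ℝ) ≤ (b : ℝ) ^ (1 - α) →
      (∃ (g₀ : LS) (r : ℝ), 0 < r ∧ ∀ g : LS, ‖g - g₀‖ < r →
        ∃ y ∈ interior (range (W b α g.fn)),
          {x : ℝ | x ∈ Ico (0:ℝ) 1 ∧ W b α g.fn x = y}.encard = 2) ∧
      ¬ IsShy {g : LS | ¬ ∀ y ∈ interior (range (W b α g.fn)),
        dimH {x : ℝ | x ∈ Ico (0:ℝ) 1 ∧ W b α g.fn x = y} = ENNReal.ofReal (1 - α)}) ∧
    ¬ (∀ (b : ℕ) (α : ℝ), 2 ≤ b → 0 < α → α < 1 →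
      IsShy {g : LS | ¬ ∀ y ∈ interior (range (W b α g.fn)),
        dimH {x : ℝ | x ∈ Ico (0:ℝ) 1 ∧ W b α g.fn x = y} = ENNReal.ofReal (1 - α)}) := by
  refine ⟨fun b α hb hα h1 h2 => ⟨main_ball hb h1 h2, main_shy hb hα h1 h2⟩, fun H => ?_⟩
  have e1 : ((41 : ℕ) : ℝ) ^ (Real.logb 41 20) = 20 := by
    push_cast
    exact Real.rpow_logb (by norm_num) (by norm_num) (by norm_num)
  have h0 : 0 < Real.logb 41 20 := Real.logb_pos (by norm_num) (by norm_num)
  have h1 : Real.logb 41 20 < 1 := by
    rw [Real.logb_lt_iff_lt_rpow (by norm_num) (by norm_num), Real.rpow_one]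
    norm_num
  have e2 : ((41 : ℕ) : ℝ) ^ (1 - Real.logb 41 20) = 41 / 20 := by
    rw [Real.rpow_sub (by norm_num), e1, Real.rpow_one]
    norm_num
  exact main_shy (b := 41) (by decide) h1 (by rw [e1]) (by rw [e2]; norm_num)
    (H 41 _ (by norm_num) h0 h1)

end Pool.Agent.Results.MP_935c4d_an.TwoPointLevel
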